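import Mathlib

set_option autoImplicit false

namespace Pool.Agent.H.MP_a45f4e_ag

open PowerSeries

theorem finite_map {A B : Type*} [CommRing A] [CommRing B] (φ : A →+* B) (h : φ.Finite) :
    (PowerSeries.map φ).Finite := by
  let := φ.toAlgebra
  have hf : Module.Finite A B := h
  obtain ⟨n, b, hb⟩ := Module.Finite.exists_fin (R := A) (M := B)
  let := (PowerSeries.map φ).toAlgebra
  refine ⟨Submodule.fg_def.2 ⟨Set.range (fun i => (C (b i) : B⟦X⟧)), Set.finite_range _, ?_⟩⟩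
  rw [eq_top_iff]
  intro f _
  choose a ha using fun m => (Submodule.mem_span_range_iff_exists_fun A).1
    (hb ▸ Submodule.mem_top : coeff m f ∈ Submodule.span A (Set.range b))
  refine (Submodule.mem_span_range_iff_exists_fun _).2 ⟨fun i => mk fun m => a m i, ?_⟩
  ext m
  rw [map_sum, ← ha m]
  refine Finset.sum_congr rfl fun i _ => ?_
  change coeff m (PowerSeries.map φ (mk fun m => a m i) * C (b i)) = φ (a m i) * b i
  rw [coeff_mul_C, coeff_map, coeff_mk]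

variable {K : Type} [Field K]

noncomputable def ep : K⟦X⟧⟦X⟧ →+* K := (constantCoeff (R := K)).comp (constantCoeff (R := K⟦X⟧))
noncomputable def du (f : K⟦X⟧⟦X⟧) : K := coeff 1 (constantCoeff f)
noncomputable def dv (f : K⟦X⟧⟦X⟧) : K := constantCoeff (coeff 1 f)
noncomputable def uu : K⟦X⟧⟦X⟧ := C X
noncomputable def cc : K →+* K⟦X⟧⟦X⟧ := (C (R := K⟦X⟧)).comp (C (R := K))

theorem ep_apply (f : K⟦X⟧⟦X⟧) : ep f = constantCoeff (constantCoeff f) := rfl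
theorem cc_apply (a : K) : cc a = C (C a) := rfl
theorem du_add (f g : K⟦X⟧⟦X⟧) : du (f + g) = du f + du g := by simp [du]
theorem dv_add (f g : K⟦X⟧⟦X⟧) : dv (f + g) = dv f + dv g := by simp [dv]
theorem du_neg (f : K⟦X⟧⟦X⟧) : du (-f) = -du f := by simp [du]
theorem dv_neg (f : K⟦X⟧⟦X⟧) : dv (-f) = -dv f := by simp [dv]
theorem du_mul (f g : K⟦X⟧⟦X⟧) : du (f * g) = ep f * du g + ep g * du f := by
  simp [du, ep_apply, coeff_one_mul, mul_comm, add_comm]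
theorem dv_mul (f g : K⟦X⟧⟦X⟧) : dv (f * g) = ep f * dv g + ep g * dv f := by
  simp [dv, ep_apply, coeff_one_mul, mul_comm, add_comm]
theorem ep_uu : ep (uu : K⟦X⟧⟦X⟧) = 0 := by simp [ep_apply, uu]
theorem ep_X : ep (X : K⟦X⟧⟦X⟧) = 0 := by simp [ep_apply]
theorem ep_cc (a : K) : ep (cc a) = a := by simp [ep_apply, cc_apply]
theorem du_uu : du (uu : K⟦X⟧⟦X⟧) = 1 := by simp [du, uu]
theorem du_X : du (X : K⟦X⟧⟦X⟧) = 0 := by simp [du]
theorem dv_uu : dv (uu : K⟦X⟧⟦X⟧) = 0 := by simp [dv, uu]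
theorem dv_X : dv (X : K⟦X⟧⟦X⟧) = 1 := by simp [dv]
theorem du_cc (a : K) : du (cc a) = 0 := by simp [du, cc_apply]
theorem dv_cc (a : K) : dv (cc a) = 0 := by simp [dv, cc_apply]

theorem decomp (f : K⟦X⟧⟦X⟧) : ∃ a b, f = cc (ep f) + uu * a + X * b := by
  refine ⟨C (mk fun n => coeff (n + 1) (constantCoeff f)), mk fun n => coeff (n + 1) f, ?_⟩
  conv_lhs => rw [eq_X_mul_shift_add_const f, eq_X_mul_shift_add_const (constantCoeff f)]
  rw [map_add, map_mul, cc_apply, ep_apply, uu]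
  ring

theorem cancel {f g : K⟦X⟧⟦X⟧} {n : ℕ} (hn : n ≠ 0) (h : uu ^ n * f = X ^ n * g) :
    constantCoeff f = 0 ∧ ep g = 0 := by
  constructor
  · have := congrArg constantCoeff h
    simpa [uu, hn] using this
  · have := congrArg (PowerSeries.map (constantCoeff (R := K))) h
    simp only [uu, map_mul, map_pow, map_C, constantCoeff_X, map_zero, zero_pow hn, zero_mul,
      map_X] at this
    have h2 := (mul_eq_zero.1 this.symm).resolve_left (pow_ne_zero n X_ne_zero)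
    have h3 := congrArg (coeff 0) h2
    rw [coeff_map] at h3
    simpa [ep_apply] using h3

variable [Algebra (ZMod 2) K] (l1 l2 : K →ₗ[ZMod 2] ZMod 2)

theorem z2 (c : K) (h : c ∈ (algebraMap (ZMod 2) K).range) : c = 0 ∨ c = 1 := by
  obtain ⟨a, rfl⟩ := h
  have : ∀ a : ZMod 2, a = 0 ∨ a = 1 := by decide
  rcases this a with rfl | rfl <;> simp

def RR : Subring K⟦X⟧⟦X⟧ where
  carrier := {f | (ep f = 0 ∨ ep f = 1) ∧ l1 (du f) + l2 (dv f) = 0}
  mul_mem' := by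
    rintro f g ⟨hf, hf'⟩ ⟨hg, hg'⟩
    refine ⟨?_, ?_⟩
    · rw [map_mul]
      rcases hf with h | h <;> rcases hg with h' | h' <;> simp [h, h']
    · rw [du_mul, dv_mul]
      rcases hf with h | h <;> rcases hg with h' | h' <;> simp [h, h', hf', hg']
      linear_combination hf' + hg'
  one_mem' := ⟨Or.inr (map_one _), by rw [← map_one cc, du_cc, dv_cc]; simp⟩
  add_mem' := by
    rintro f g ⟨hf, hf'⟩ ⟨hg, hg'⟩
    have : CharP K 2 := charP_of_injective_algebraMap (algebraMap (ZMod 2) K).injective 2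
    refine ⟨?_, ?_⟩
    · rw [map_add]
      rcases hf with h | h <;> rcases hg with h' | h' <;> simp [h, h', CharTwo.add_self_eq_zero]
    · rw [du_add, dv_add, map_add, map_add]
      linear_combination hf' + hg'
  zero_mem' := ⟨Or.inl (map_zero _), by rw [← map_zero cc, du_cc, dv_cc]; simp⟩
  neg_mem' := by
    rintro f ⟨hf, hf'⟩
    have : CharP K 2 := charP_of_injective_algebraMap (algebraMap (ZMod 2) K).injective 2
    refine ⟨?_, ?_⟩
    · rw [map_neg, CharTwo.neg_eq]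
      exact hf
    · rw [du_neg, dv_neg, map_neg, map_neg]
      linear_combination -hf'

variable {l1 l2}

theorem mem_RR {f : K⟦X⟧⟦X⟧} :
    f ∈ RR l1 l2 ↔ (ep f = 0 ∨ ep f = 1) ∧ l1 (du f) + l2 (dv f) = 0 := Iff.rfl

theorem lin_mem {a b : K⟦X⟧⟦X⟧} (h : l1 (ep a) + l2 (ep b) = 0) : uu * a + X * b ∈ RR l1 l2 := by
  refine ⟨Or.inl (by simp [ep_uu, ep_X]), ?_⟩
  simpa [du_add, dv_add, du_mul, dv_mul, ep_uu, ep_X, du_uu, du_X, dv_uu, dv_X] using h

theorem isUnit_iff (f : RR l1 l2) : IsUnit f ↔ ep (f : K⟦X⟧⟦X⟧) = 1 := by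
  constructor
  · intro h
    exact f.2.1.resolve_left ((h.map (RR l1 l2).subtype).map ep).ne_zero
  · intro h
    have h1 : IsUnit (f : K⟦X⟧⟦X⟧) := by
      rw [isUnit_iff_constantCoeff, isUnit_iff_constantCoeff, ← ep_apply, h]
      exact isUnit_one
    obtain ⟨g, hg⟩ := h1.exists_right_inv
    have e1 : ep g = 1 := by simpa [h] using congrArg ep hg
    have e2 := du_mul (f : K⟦X⟧⟦X⟧) g
    have e3 := dv_mul (f : K⟦X⟧⟦X⟧) g
    rw [hg, h, e1, ← map_one cc, one_mul, one_mul] at e2 e3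
    rw [du_cc] at e2
    rw [dv_cc] at e3
    refine IsUnit.of_mul_eq_one ⟨g, Or.inr e1, ?_⟩ (Subtype.ext hg)
    rw [eq_neg_of_add_eq_zero_left e2.symm, eq_neg_of_add_eq_zero_left e3.symm, map_neg, map_neg]
    linear_combination -f.2.2

instance isLocal : IsLocalRing (RR l1 l2) := by
  refine IsLocalRing.of_isUnit_or_isUnit_one_sub_self fun a => ?_
  rw [isUnit_iff, isUnit_iff]
  rcases a.2.1 with h | h
  · right
    simp [h]
  · exact Or.inl h

theorem mem_max (f : RR l1 l2) :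
    f ∈ IsLocalRing.maximalIdeal (RR l1 l2) ↔ ep (f : K⟦X⟧⟦X⟧) = 0 := by
  rw [IsLocalRing.mem_maximalIdeal, mem_nonunits_iff, isUnit_iff]
  rcases f.2.1 with h | h <;> simp [h]

theorem noeth [Module.Finite (ZMod 2) K] (h1 : l1 1 = 0) (h2 : l2 1 = 0) :
    IsNoetherianRing (RR l1 l2) := by
  let φ : (ZMod 2)⟦X⟧⟦X⟧ →+* K⟦X⟧⟦X⟧ := PowerSeries.map (PowerSeries.map (algebraMap (ZMod 2) K))
  have hφ : φ.Finite := finite_map _ (finite_map _ (RingHom.finite_algebraMap.2 inferInstance))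
  have hl : ∀ (l : K →ₗ[ZMod 2] ZMod 2), l 1 = 0 → ∀ a, l (algebraMap (ZMod 2) K a) = 0 := by
    intro l hl a
    rw [Algebra.algebraMap_eq_smul_one, map_smul, hl, smul_zero]
  have hm : ∀ f, φ f ∈ RR l1 l2 := by
    intro f
    refine ⟨z2 _ ⟨constantCoeff (constantCoeff f), ?_⟩, ?_⟩
    · simp only [ep_apply, φ, ← coeff_zero_eq_constantCoeff_apply, coeff_map]
    · simp only [du, dv, φ, ← coeff_zero_eq_constantCoeff_apply, coeff_map, hl l1 h1, hl l2 h2,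
        add_zero]
  let ψ := φ.codRestrict (RR l1 l2) hm
  let := φ.toAlgebra
  let := ψ.toAlgebra
  have : Module.Finite (ZMod 2)⟦X⟧⟦X⟧ K⟦X⟧⟦X⟧ := hφ
  let i : RR l1 l2 →ₗ[(ZMod 2)⟦X⟧⟦X⟧] K⟦X⟧⟦X⟧ :=
    { toFun := Subtype.val, map_add' := fun _ _ => rfl, map_smul' := fun _ _ => rfl }
  have : IsNoetherian (ZMod 2)⟦X⟧⟦X⟧ (RR l1 l2) :=
    isNoetherian_of_injective i Subtype.val_injective
  exact isNoetherian_of_tower (ZMod 2)⟦X⟧⟦X⟧ this

theorem uu_mem (h1 : l1 1 = 0) : uu ∈ RR l1 l2 :=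
  ⟨Or.inl ep_uu, by rw [du_uu, dv_uu, h1, map_zero, add_zero]⟩

theorem X_mem (h2 : l2 1 = 0) : X ∈ RR l1 l2 :=
  ⟨Or.inl ep_X, by rw [du_X, dv_X, h2, map_zero, add_zero]⟩

noncomputable def sop (h1 : l1 1 = 0) (h2 : l2 1 = 0) : Fin 2 → RR l1 l2 :=
  ![⟨uu, uu_mem h1⟩, ⟨X, X_mem h2⟩]

instance charR : ExpChar (RR l1 l2) 2 := by
  have : CharP K 2 := charP_of_injective_algebraMap (algebraMap (ZMod 2) K).injective 2
  have : CharP K⟦X⟧⟦X⟧ 2 := charP_of_injective_ringHom (f := cc (K := K)) (cc (K := K)).injective 2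
  infer_instance

theorem mem_frob (h1 : l1 1 = 0) (h2 : l2 1 = 0) (e : ℕ) (r : RR l1 l2) :
    r ∈ Ideal.map (iterateFrobenius (RR l1 l2) 2 e) (Ideal.span (Set.range (sop h1 h2))) ↔
      ∃ a b : RR l1 l2, (r : K⟦X⟧⟦X⟧) = uu ^ 2 ^ e * (a : K⟦X⟧⟦X⟧) + X ^ 2 ^ e * (b : K⟦X⟧⟦X⟧) := by
  rw [Ideal.map_span, ← Set.range_comp, Ideal.mem_span_range_iff_exists_fun]
  constructor
  · rintro ⟨c, rfl⟩
    refine ⟨c 0, c 1, ?_⟩
    simp [Fin.sum_univ_two, sop, iterateFrobenius_def, mul_comm]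
  · rintro ⟨a, b, h⟩
    refine ⟨![a, b], Subtype.ext ?_⟩
    simp [Fin.sum_univ_two, sop, iterateFrobenius_def, mul_comm, h]

theorem mem_I (h1 : l1 1 = 0) (h2 : l2 1 = 0) (r : RR l1 l2) :
    r ∈ Ideal.span (Set.range (sop h1 h2)) ↔
      ∃ a b : RR l1 l2, (r : K⟦X⟧⟦X⟧) = uu * (a : K⟦X⟧⟦X⟧) + X * (b : K⟦X⟧⟦X⟧) := by
  have := mem_frob h1 h2 0 r
  simpa using this

theorem quad (hs : ∀ c1 c2, ∃ a, l1 a = c1 ∧ l2 a = c2) {x y : K⟦X⟧⟦X⟧} (hx : ep x = 0)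
    (hy : ep y = 0) : ∃ a b : RR l1 l2, uu * x + X * y = uu * (a : K⟦X⟧⟦X⟧) + X * (b : K⟦X⟧⟦X⟧) := by
  obtain ⟨a1, b1, e1⟩ := decomp x
  obtain ⟨a2, b2, e2⟩ := decomp y
  rw [hx, map_zero, zero_add] at e1
  rw [hy, map_zero, zero_add] at e2
  obtain ⟨κ, k1, k2⟩ := hs (-l1 (ep a2) - l2 (ep b2)) (l1 (ep a1) + l2 (ep b1))
  refine ⟨⟨uu * a1 + X * (b1 - cc κ), lin_mem ?_⟩, ⟨uu * (a2 + cc κ) + X * b2, lin_mem ?_⟩, ?_⟩
  · rw [map_sub, ep_cc, map_sub, k2]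
    ring
  · rw [map_add, ep_cc, map_add, k1]
    ring
  · rw [e1, e2]
    ring

theorem rad (h1 : l1 1 = 0) (h2 : l2 1 = 0) (hs : ∀ c1 c2, ∃ a, l1 a = c1 ∧ l2 a = c2) :
    (Ideal.span (Set.range (sop h1 h2))).radical = IsLocalRing.maximalIdeal (RR l1 l2) := by
  apply le_antisymm
  · rw [Ideal.IsRadical.radical_le_iff (IsLocalRing.maximalIdeal.isMaximal _).isPrime.isRadical]
    intro r hr
    obtain ⟨a, b, h⟩ := (mem_I h1 h2 r).1 hr
    rw [mem_max, h]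
    simp [ep_uu, ep_X]
  · intro r hr
    rw [mem_max] at hr
    obtain ⟨a, b, h⟩ := decomp (r : K⟦X⟧⟦X⟧)
    rw [hr, map_zero, zero_add] at h
    obtain ⟨c, d, h'⟩ := quad hs (x := a * (r : K⟦X⟧⟦X⟧)) (y := b * (r : K⟦X⟧⟦X⟧)) (by simp [hr]) (by simp [hr])
    refine ⟨2, (mem_I h1 h2 _).2 ⟨c, d, ?_⟩⟩
    rw [← h', Subring.coe_pow, sq]
    conv_lhs => enter [1]; rw [h]
    ring

theorem dim (h1 : l1 1 = 0) (h2 : l2 1 = 0) (hs : ∀ c1 c2, ∃ a, l1 a = c1 ∧ l2 a = c2)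
    [IsNoetherianRing (RR l1 l2)] : ringKrullDim (RR l1 l2) = ((2 : ℕ) : WithBot ℕ∞) := by
  classical
  rw [← IsLocalRing.maximalIdeal_height_eq_ringKrullDim]
  have key : (IsLocalRing.maximalIdeal (RR l1 l2)).height = 2 := by
    apply le_antisymm
    · have h3 : IsLocalRing.maximalIdeal (RR l1 l2) ∈
          (Ideal.span ((Finset.univ.image (sop h1 h2) : Finset (RR l1 l2)) :
            Set (RR l1 l2))).minimalPrimes := by
        rw [Finset.coe_image, Finset.coe_univ, Set.image_univ, ← Ideal.radical_minimalPrimes,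
          rad h1 h2 hs, Ideal.minimalPrimes_eq_subsingleton_self]
        rfl
      refine (Ideal.height_le_card_of_mem_minimalPrimes_span_finset h3).trans ?_
      exact_mod_cast Finset.card_image_le.trans (by simp)
    · let P : Ideal (RR l1 l2) :=
        RingHom.ker ((constantCoeff (R := K⟦X⟧)).comp (RR l1 l2).subtype)
      have : P.IsPrime := RingHom.ker_isPrime _
      have e1 : (⊥ : Ideal (RR l1 l2)) < P := by
        refine bot_lt_iff_ne_bot.2 fun h => ?_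
        have : (⟨X, X_mem h2⟩ : RR l1 l2) ∈ P := by simp [P]
        rw [h, Ideal.mem_bot] at this
        exact X_ne_zero (congrArg Subtype.val this)
      have e2 : P < IsLocalRing.maximalIdeal (RR l1 l2) := by
        refine lt_of_le_of_ne (IsLocalRing.le_maximalIdeal (Ideal.IsPrime.ne_top this)) fun h => ?_
        have : (⟨uu, uu_mem h1⟩ : RR l1 l2) ∈ P := by
          rw [h, mem_max]; exact ep_uu
        simp [P, uu] at this
      have e3 := Ideal.height_add_one_le_of_lt_of_isPrime e1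
      have e4 := Ideal.height_add_one_le_of_lt_of_isPrime e2
      calc (2 : ℕ∞) = 0 + 1 + 1 := by norm_num
        _ ≤ (⊥ : Ideal (RR l1 l2)).height + 1 + 1 := by gcongr; exact zero_le
        _ ≤ _ := le_trans (by gcongr) e4
  rw [key]
  rfl

theorem closed (h1 : l1 1 = 0) (h2 : l2 1 = 0) (hs : ∀ c1 c2, ∃ a, l1 a = c1 ∧ l2 a = c2)
    (r : RR l1 l2) (e : ℕ) (h : r ^ 2 ^ e ∈ Ideal.map (iterateFrobenius (RR l1 l2) 2 e)
      (Ideal.span (Set.range (sop h1 h2)))) : r ∈ Ideal.span (Set.range (sop h1 h2)) := by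
  have : CharP K 2 := charP_of_injective_algebraMap (algebraMap (ZMod 2) K).injective 2
  have : CharP K⟦X⟧⟦X⟧ 2 := charP_of_injective_ringHom (f := cc (K := K)) (cc (K := K)).injective 2
  have hq : 2 ^ e ≠ 0 := by positivity
  obtain ⟨a, b, h⟩ := (mem_frob h1 h2 e _).1 h
  obtain ⟨x, y, hr⟩ := decomp (r : K⟦X⟧⟦X⟧)
  rw [Subring.coe_pow] at h
  have h0 : ep (r : K⟦X⟧⟦X⟧) = 0 := by
    have := congrArg ep h
    simpa [ep_uu, ep_X] using this
  rw [h0, map_zero, zero_add] at hr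
  rw [hr, add_pow_char_pow, mul_pow, mul_pow] at h
  obtain ⟨e1, e2⟩ := cancel hq (f := x ^ 2 ^ e - (a : K⟦X⟧⟦X⟧))
    (g := (b : K⟦X⟧⟦X⟧) - y ^ 2 ^ e) (by linear_combination h)
  have e1' : ep x ^ 2 ^ e = ep (a : K⟦X⟧⟦X⟧) := by
    rw [← map_pow, ← sub_eq_zero, ← map_sub, ep_apply, e1, map_zero]
  have e2' : ep y ^ 2 ^ e = ep (b : K⟦X⟧⟦X⟧) := by
    rw [← map_pow, eq_comm, ← sub_eq_zero, ← map_sub, e2]
  have key : ∀ c : K, c ^ 2 ^ e = 0 ∨ c ^ 2 ^ e = 1 → cc c ∈ RR l1 l2 := by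
    intro c hc
    refine ⟨?_, by rw [du_cc, dv_cc]; simp⟩
    rw [ep_cc]
    rcases hc with hc | hc
    · exact Or.inl (pow_eq_zero_iff hq |>.1 hc)
    · right
      have : (c - 1) ^ 2 ^ e = 0 := by rw [sub_pow_char_pow, hc, one_pow, sub_self]
      exact sub_eq_zero.1 (pow_eq_zero_iff hq |>.1 this)
  obtain ⟨c, d, h'⟩ := quad hs (x := x - cc (ep x)) (y := y - cc (ep y)) (by simp [ep_cc])
    (by simp [ep_cc])
  refine (mem_I h1 h2 r).2 ⟨c + ⟨_, key (ep x) (e1' ▸ a.2.1)⟩, d + ⟨_, key (ep y) (e2' ▸ b.2.1)⟩, ?_⟩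
  rw [hr]
  push_cast
  linear_combination h'

theorem not_closed (h1 : l1 1 = 0) (h2 : l2 1 = 0) (hs : ∀ c1 c2, ∃ a, l1 a = c1 ∧ l2 a = c2) :
    ∃ r : RR l1 l2, r ^ 2 ^ 1 ∈ Ideal.map (iterateFrobenius (RR l1 l2) 2 1)
      (Ideal.map (iterateFrobenius (RR l1 l2) 2 1) (Ideal.span (Set.range (sop h1 h2)))) ∧
      r ∉ Ideal.map (iterateFrobenius (RR l1 l2) 2 1) (Ideal.span (Set.range (sop h1 h2))) := by
  obtain ⟨κ, k1, -⟩ := hs 1 0
  have hm : ∀ z : K⟦X⟧⟦X⟧, uu * (uu * z) + X * 0 ∈ RR l1 l2 := fun z => lin_mem (by simp [ep_uu])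
  refine ⟨⟨_, hm (cc κ * uu)⟩, ?_, fun h => ?_⟩
  · rw [Ideal.map_map, ← iterateFrobenius_add, mem_frob]
    refine ⟨⟨_, hm (cc κ ^ 2)⟩, 0, ?_⟩
    push_cast
    ring
  · obtain ⟨a, b, h⟩ := (mem_frob h1 h2 1 _).1 h
    have h3 : uu ^ 2 * (cc κ * uu - (a : K⟦X⟧⟦X⟧)) = X ^ 2 * (b : K⟦X⟧⟦X⟧) := by
      push_cast at h
      linear_combination h
    have e1 := (cancel two_ne_zero h3).1
    have e2 : du (cc κ * uu - (a : K⟦X⟧⟦X⟧)) = 0 := by rw [du, e1, map_zero]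
    have e3 : dv (cc κ * uu - (a : K⟦X⟧⟦X⟧)) = 0 := by
      have := congrArg (coeff 1) h3
      rw [uu, ← map_pow, coeff_C_mul, coeff_X_pow_mul'] at this
      simp only [Nat.not_ofNat_le_one, ↓reduceIte, mul_eq_zero, ne_eq, OfNat.ofNat_ne_zero,
        not_false_eq_true, pow_eq_zero_iff, X_ne_zero, false_or] at this
      rw [dv, uu, this, map_zero]
    rw [sub_eq_add_neg, du_add, du_neg, du_mul, ep_cc, du_uu, ep_uu] at e2
    rw [sub_eq_add_neg, dv_add, dv_neg, dv_mul, ep_cc, dv_uu, ep_uu] at e3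
    have e4 : du (a : K⟦X⟧⟦X⟧) = κ := by linear_combination -e2
    have e5 : dv (a : K⟦X⟧⟦X⟧) = 0 := by linear_combination -e3
    have := a.2.2
    rw [e4, e5, k1, map_zero, add_zero] at this
    exact one_ne_zero this

theorem exists_l : ∃ l1 l2 : GaloisField 2 3 →ₗ[ZMod 2] ZMod 2, l1 1 = 0 ∧ l2 1 = 0 ∧
    ∀ c1 c2, ∃ a, l1 a = c1 ∧ l2 a = c2 := by
  let W : Submodule (ZMod 2) (GaloisField 2 3) := Submodule.span (ZMod 2) {1}
  have h1 : Module.finrank (ZMod 2) W = 1 := finrank_span_singleton one_ne_zero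
  have h2 := W.finrank_quotient_add_finrank
  rw [h1, GaloisField.finrank 2 (by norm_num)] at h2
  let b := Module.finBasisOfFinrankEq (ZMod 2) (GaloisField 2 3 ⧸ W) (n := 2) (by omega)
  have h3 : W.mkQ 1 = 0 := (Submodule.Quotient.mk_eq_zero W).2 (Submodule.mem_span_singleton_self _)
  refine ⟨b.coord 0 ∘ₗ W.mkQ, b.coord 1 ∘ₗ W.mkQ, by rw [LinearMap.comp_apply, h3, map_zero],
    by rw [LinearMap.comp_apply, h3, map_zero], fun c1 c2 => ?_⟩
  obtain ⟨a, ha⟩ := W.mkQ_surjective (c1 • b 0 + c2 • b 1)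
  exact ⟨a, by rw [LinearMap.comp_apply, ha]; simp, by rw [LinearMap.comp_apply, ha]; simp⟩

end Pool.Agent.H.MP_a45f4e_ag
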